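import Mathlib

/-!
# Finite invertible automata and the groups generated by their states
-/

set_option autoImplicit false

namespace Pool.Agent.N136.IS

/-- The description of a finite automaton by its tables: the number `n` of letters (the letters are
`0, ..., n-1`), and a list with one row for each state (the states are `0, 1, ...`); the entry of
the row of the state `s` at the letter `x` is the pair (next state, output letter). -/
abbrev Code : Type := ℕ × List (List (ℕ × ℕ))

/-- The entry (next state, output letter) at the state `s` and the letter `x`. -/
def entry (T : List (List (ℕ × ℕ))) (s x : ℕ) : ℕ × ℕ := (T.getD s []).getD x (0, 0)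

/-- The tables describe a finite invertible automaton: there are at least two letters and at least
one state, each row has one entry for each letter, all next states are states, all outputs are
letters, and the outputs in each row are different from each other. -/
def Valid (A : Code) : Prop :=
  2 ≤ A.1 ∧ A.2 ≠ [] ∧ ∀ row ∈ A.2, row.length = A.1 ∧
    (∀ p ∈ row, p.1 < A.2.length ∧ p.2 < A.1) ∧ (row.map Prod.snd).Nodup

/-- The action of the state `s` on words: `s (x w) = output (s, x) · (next (s, x)) (w)`. -/
def run (T : List (List (ℕ × ℕ))) : ℕ → List ℕ → List ℕ
  | _, [] => []
  | s, x :: w => (entry T s x).2 :: run T (entry T s x).1 w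

/-- The group of the automaton: the group of permutations of the set of words (the vertices of the
regular rooted tree) generated by the actions of all states. -/
def Grp (A : Code) : Subgroup (Equiv.Perm (List (Fin A.1))) :=
  Subgroup.closure {g | ∃ s < A.2.length, ∀ w : List (Fin A.1),
    (g w).map Fin.val = run A.2 s (w.map Fin.val)}

end Pool.Agent.N136.IS
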