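import Mathlib
import Pool.Agent.N136.IS.Def

/-!
# Automata for products of states of a base automaton
-/

set_option autoImplicit false

namespace Pool.Agent.N136.IS

section comb

variable {J : Type} [DecidableEq J] {b c : ℕ} (β : J → Fin b → Fin c → Fin b × Fin c)

/-- The transition of a composition of states of the base automaton. -/
def del (s : List (J × Fin b)) (x : Fin c) : List (J × Fin b) × Fin c :=
  s.foldr (fun jv acc => ((jv.1, (β jv.1 jv.2 acc.2).1) :: acc.1, (β jv.1 jv.2 acc.2).2)) ([], x)

theorem del_nil (x : Fin c) : del β [] x = ([], x) := rfl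

theorem del_cons (jv : J × Fin b) (s : List (J × Fin b)) (x : Fin c) :
    del β (jv :: s) x = ((jv.1, (β jv.1 jv.2 (del β s x).2).1) :: (del β s x).1,
      (β jv.1 jv.2 (del β s x).2).2) := rfl

theorem del_fst (s : List (J × Fin b)) (x : Fin c) :
    (del β s x).1.map Prod.fst = s.map Prod.fst := by
  induction s with
  | nil => rfl
  | cons jv s ih => rw [del_cons]; simp [ih]

/-- All states over a word. -/
def expand (b : ℕ) (ω : List J) : List (List (J × Fin b)) :=
  ω.foldr (fun j acc => acc.flatMap fun l => (List.finRange b).map fun v => (j, v) :: l) [[]]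

theorem mem_expand (ω : List J) (s : List (J × Fin b)) :
    s ∈ expand b ω ↔ s.map Prod.fst = ω := by
  induction ω generalizing s with
  | nil => simp [expand]
  | cons j ω ih =>
    have : expand b (j :: ω) = (expand b ω).flatMap fun l =>
      (List.finRange b).map fun v => (j, v) :: l := rfl
    rw [this, List.mem_flatMap]
    constructor
    · rintro ⟨l, hl, hs⟩
      rw [List.mem_map] at hs
      obtain ⟨v, -, rfl⟩ := hs
      simp [(ih l).1 hl]
    · intro h
      cases s with
      | nil => simp at h
      | cons jv s =>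
        rw [List.map_cons, List.cons.injEq] at h
        refine ⟨s, (ih s).2 h.2, List.mem_map.2 ⟨jv.2, List.mem_finRange _, ?_⟩⟩
        rw [← h.1]

/-- All states over a list of words. -/
def states (b : ℕ) (Ω : List (List J)) : List (List (J × Fin b)) := Ω.flatMap (expand b)

theorem mem_states (Ω : List (List J)) (s : List (J × Fin b)) :
    s ∈ states b Ω ↔ s.map Prod.fst ∈ Ω := by
  unfold states
  rw [List.mem_flatMap]
  constructor
  · rintro ⟨ω, hω, h⟩
    rw [(mem_expand ω s).1 h]
    exact hω
  · intro h
    exact ⟨_, h, (mem_expand _ s).2 rfl⟩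

/-- The table. -/
def table (Ω : List (List J)) : List (List (ℕ × ℕ)) :=
  (states b Ω).map fun s => (List.finRange c).map fun x =>
    ((states b Ω).idxOf (del β s x).1, ((del β s x).2 : ℕ))

/-- The automaton. -/
abbrev code (Ω : List (List J)) : Code := (c, table β Ω)

theorem entry_table (Ω : List (List J)) (k : ℕ) (hk : k < (states b Ω).length) (x : Fin c) :
    entry (table β Ω) k x = ((states b Ω).idxOf (del β (states b Ω)[k] x).1,
      ((del β (states b Ω)[k] x).2 : ℕ)) := by
  unfold entry table
  have e1 : ((states b Ω).map fun s => (List.finRange c).map fun x =>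
      ((states b Ω).idxOf (del β s x).1, ((del β s x).2 : ℕ))).getD k [] =
      (List.finRange c).map fun x => ((states b Ω).idxOf (del β (states b Ω)[k] x).1,
        ((del β (states b Ω)[k] x).2 : ℕ)) := by
    rw [List.getD_eq_getElem _ _ (by simpa using hk), List.getElem_map]
  rw [e1, List.getD_eq_getElem _ _ (by simp), List.getElem_map, List.getElem_finRange]
  rfl

theorem idx_lt (Ω : List (List J)) (s : List (J × Fin b)) (hs : s ∈ states b Ω) (x : Fin c) :
    (states b Ω).idxOf (del β s x).1 < (states b Ω).length := by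
  apply List.idxOf_lt_length_of_mem
  rw [mem_states, del_fst, ← mem_states]
  exact hs

end comb

section sem

variable {J : Type} [DecidableEq J] {b c : ℕ} (β : J → Fin b → Fin c → Fin b × Fin c)
  {S : Type} [Group S] (Ψ : S →* Equiv.Perm (List (Fin c))) (val : J → Fin b → S)

/-- The value of a state. -/
def evs (s : List (J × Fin b)) : S := (s.map fun jv => val jv.1 jv.2).prod

variable (h0 : ∀ j v, Ψ (val j v) [] = [])
  (h1 : ∀ j v x w, Ψ (val j v) (x :: w) = (β j v x).2 :: Ψ (val j (β j v x).1) w)

include h0 in
theorem psi_nil (s : List (J × Fin b)) : Ψ (evs val s) [] = [] := by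
  induction s with
  | nil => simp [evs]
  | cons jv s ih =>
    have : evs val (jv :: s) = val jv.1 jv.2 * evs val s := by simp [evs]
    rw [this, map_mul, Equiv.Perm.mul_apply, ih, h0]

include h1 in
theorem psi_cons (s : List (J × Fin b)) (x : Fin c) (w : List (Fin c)) :
    Ψ (evs val s) (x :: w) = (del β s x).2 :: Ψ (evs val (del β s x).1) w := by
  induction s with
  | nil => simp [evs, del_nil]
  | cons jv s ih =>
    have e1 : evs val (jv :: s) = val jv.1 jv.2 * evs val s := by simp [evs]
    rw [e1, map_mul, Equiv.Perm.mul_apply, ih, h1, del_cons]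
    have e2 : evs val ((jv.1, (β jv.1 jv.2 (del β s x).2).1) :: (del β s x).1) =
      val jv.1 (β jv.1 jv.2 (del β s x).2).1 * evs val (del β s x).1 := by simp [evs]
    rw [e2, map_mul, Equiv.Perm.mul_apply]

include h0 h1 in
theorem psi_run (Ω : List (List J)) (w : List (Fin c)) : ∀ k (hk : k < (states b Ω).length),
    (Ψ (evs val (states b Ω)[k]) w).map Fin.val = run (table β Ω) k (w.map Fin.val) := by
  induction w with
  | nil => intro k hk; rw [psi_nil Ψ val h0]; simp [run]
  | cons x w ih =>
    intro k hk
    rw [psi_cons β Ψ val h1, List.map_cons, List.map_cons, run, entry_table β Ω k hk x]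
    dsimp only
    have hlt := idx_lt β Ω (states b Ω)[k] (List.getElem_mem hk) x
    rw [← ih _ hlt, List.getElem_idxOf hlt]

include h0 h1 in
/-- The group of the automaton. -/
theorem grp_eq (Ω : List (List J)) :
    Grp (code β Ω) = (Subgroup.closure {s | ∃ l : List (J × Fin b), l.map Prod.fst ∈ Ω ∧
      s = evs val l}).map Ψ := by
  rw [MonoidHom.map_closure]
  unfold Grp
  congr 1
  ext g
  constructor
  · rintro ⟨k, hk, hg⟩
    have hk' : k < (states b Ω).length := by simpa [code, table] using hk
    refine ⟨_, ⟨(states b Ω)[k], (mem_states _ _).1 (List.getElem_mem hk'), rfl⟩, ?_⟩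
    apply Equiv.ext
    intro w
    apply List.map_injective_iff.2 Fin.val_injective
    rw [hg w, psi_run β Ψ val h0 h1 Ω w k hk']
  · rintro ⟨_, ⟨l, hl, rfl⟩, rfl⟩
    have hm := (mem_states Ω l).2 hl
    have hlt := List.idxOf_lt_length_of_mem hm
    refine ⟨(states b Ω).idxOf l, by simpa [code, table] using hlt, ?_⟩
    intro w
    have := psi_run β Ψ val h0 h1 Ω w _ hlt
    rw [List.getElem_idxOf hlt] at this
    exact this

include h0 h1 in
theorem code_valid (hc : 2 ≤ c) (Ω : List (List J)) (hΩ : states b Ω ≠ []) :
    Valid (code β Ω) := by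
  refine ⟨hc, by simpa [code, table] using hΩ, ?_⟩
  intro row hrow
  simp only [code, table, List.mem_map] at hrow
  obtain ⟨s, hs, rfl⟩ := hrow
  refine ⟨by simp [code], ?_, ?_⟩
  · intro p hp
    rw [List.mem_map] at hp
    obtain ⟨x, -, rfl⟩ := hp
    exact ⟨by simpa [code, table] using idx_lt β Ω s hs x, (del β s x).2.2⟩
  · rw [List.map_map]
    apply List.Nodup.map _ (List.nodup_finRange c)
    intro x y hxy
    have hxy' : (del β s x).2 = (del β s y).2 := Fin.ext hxy
    have e : ∀ z : Fin c, Ψ (evs val s) [z] = [(del β s z).2] := by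
      intro z
      rw [psi_cons β Ψ val h1, psi_nil Ψ val h0]
    have := (Ψ (evs val s)).injective ((e x).trans ((congrArg (fun t => [t]) hxy').trans (e y).symm))
    simpa using this

end sem

section prim

variable {J : Type} [DecidableEq J] [Primcodable J] [Finite J] {b c : ℕ}
  (β : J → Fin b → Fin c → Fin b × Fin c)

theorem primrec_del : Primrec₂ (del β) := by
  unfold del
  have hβ : Primrec fun p : (J × Fin b) × Fin c => β p.1.1 p.1.2 p.2 := Primrec.dom_finite _
  have hβ' : Primrec fun p : (List (J × Fin b) × Fin c) × ((J × Fin b) × (List (J × Fin b) × Fin c)) =>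
      β p.2.1.1 p.2.1.2 p.2.2.2 :=
    hβ.comp (Primrec.pair (Primrec.fst.comp Primrec.snd)
      (Primrec.snd.comp (Primrec.snd.comp Primrec.snd)))
  refine Primrec.list_foldr (f := fun p : List (J × Fin b) × Fin c => p.1)
    (g := fun p => (([] : List (J × Fin b)), p.2))
    (h := fun _ (q : (J × Fin b) × (List (J × Fin b) × Fin c)) =>
      ((q.1.1, (β q.1.1 q.1.2 q.2.2).1) :: q.2.1, (β q.1.1 q.1.2 q.2.2).2)) Primrec.fst
    (Primrec.pair (Primrec.const _) Primrec.snd) ?_
  exact Primrec.pair (Primrec.list_cons.comp (Primrec.pair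
    (Primrec.fst.comp (Primrec.fst.comp Primrec.snd)) (Primrec.fst.comp hβ'))
    (Primrec.fst.comp (Primrec.snd.comp Primrec.snd))) (Primrec.snd.comp hβ')

theorem primrec_expand : Primrec (expand (J := J) b) := by
  unfold expand
  refine Primrec.list_foldr (f := fun ω : List J => ω) (g := fun _ => ([[]] : List (List (J × Fin b))))
    (h := fun _ (q : J × List (List (J × Fin b))) =>
      q.2.flatMap fun l => (List.finRange b).map fun v => (q.1, v) :: l) Primrec.id
    (Primrec.const _) ?_
  refine Primrec.list_flatMap (Primrec.snd.comp Primrec.snd) ?_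
  refine Primrec.list_map (Primrec.const _) ?_
  exact Primrec.list_cons.comp (Primrec.pair (Primrec.fst.comp (Primrec.snd.comp
    (Primrec.fst.comp Primrec.fst))) Primrec.snd) (Primrec.snd.comp Primrec.fst)

theorem primrec_states : Primrec (states (J := J) b) := by
  unfold states
  exact Primrec.list_flatMap Primrec.id (primrec_expand.comp Primrec.snd)

theorem primrec_code : Primrec (code β) := by
  unfold code table
  refine Primrec.pair (Primrec.const _) ?_
  refine Primrec.list_map primrec_states ?_
  refine Primrec.list_map (Primrec.const _) ?_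
  have hd : Primrec fun p : (List (List J) × List (J × Fin b)) × Fin c => del β p.1.2 p.2 :=
    (primrec_del β).comp (Primrec.snd.comp Primrec.fst) Primrec.snd
  refine Primrec.pair ?_ (Primrec.fin_val.comp (Primrec.snd.comp hd))
  have hb : (List.instBEq : BEq (List (J × Fin b))) = instBEqOfDecidableEq :=
    lawful_beq_subsingleton _ _
  rw [hb]
  exact Primrec.list_idxOf.comp (Primrec.fst.comp hd)
    (primrec_states.comp (Primrec.fst.comp Primrec.fst))

end prim

end Pool.Agent.N136.IS
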