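import Mathlib
import Pool.Agent.N136.IS.Base
import Pool.Agent.H905R2.AutC
import Pool.Agent.Helper580.Law.TwoVar

/-!
# The action of pairs of affine maps of the plane on words
-/

set_option autoImplicit false

namespace Pool.Agent.N136.IS

open Pool.Agent.H905R2.Aut (Z2 shearA shearB free_injective)
open Multiplicative

/-- The plane. -/
abbrev V : Type := ℤ × ℤ

/-- A faithful action of a free group on the plane. -/
noncomputable def phi (N : ℕ) : FreeGroup (Fin N) →* MulAut Z2 :=
  (FreeGroup.lift (fun b : Bool => if b then shearA else shearB)).comp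
    (Pool.Agent.Helper580.Law.emb N)

theorem phi_inj (N : ℕ) : Function.Injective (phi N) :=
  free_injective.comp (Pool.Agent.Helper580.Law.emb_injective N)

/-- The group of affine maps of the plane with linear part in the free group. -/
abbrev E (N : ℕ) : Type := Z2 ⋊[phi N] FreeGroup (Fin N)

/-- The linear action. -/
noncomputable def lin {N : ℕ} (g : FreeGroup (Fin N)) (x : V) : V := toAdd (phi N g (ofAdd x))

theorem lin_add {N : ℕ} (g : FreeGroup (Fin N)) (x y : V) : lin g (x + y) = lin g x + lin g y := by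
  simp [lin, ofAdd_add]

theorem lin_zero {N : ℕ} (g : FreeGroup (Fin N)) : lin g 0 = 0 := by
  simp [lin, ofAdd_zero]

theorem lin_mul {N : ℕ} (g h : FreeGroup (Fin N)) (x : V) : lin (g * h) x = lin g (lin h x) := by
  simp [lin]

theorem lin_one {N : ℕ} (x : V) : lin (1 : FreeGroup (Fin N)) x = x := by
  simp [lin]

/-- The affine action. -/
noncomputable def aff {N : ℕ} (e : E N) (x : V) : V := toAdd e.left + lin e.right x

theorem aff_mul {N : ℕ} (e f : E N) (x : V) : aff (e * f) x = aff e (aff f x) := by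
  unfold aff
  rw [SemidirectProduct.mul_left, SemidirectProduct.mul_right, lin_mul, lin_add, toAdd_mul]
  rw [add_assoc]
  rfl

theorem aff_one {N : ℕ} (x : V) : aff (1 : E N) x = x := by
  simp [aff, lin_one]

/-- Pairs of affine maps. -/
abbrev S (N : ℕ) : Type := E N × E N

/-- Pairs of points of the plane. -/
abbrev V4 : Type := V × V

/-- The action. -/
noncomputable def act {N : ℕ} (s : S N) (x : V4) : V4 := (aff s.1 x.1, aff s.2 x.2)

theorem act_mul {N : ℕ} (s t : S N) (x : V4) : act (s * t) x = act s (act t x) := by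
  simp [act, aff_mul]

theorem act_one {N : ℕ} (x : V4) : act (1 : S N) x = x := by
  simp [act, aff_one]

/-- The linear part. -/
noncomputable def lin4 {N : ℕ} (s : S N) (x : V4) : V4 := (lin s.1.right x.1, lin s.2.right x.2)

theorem lin4_add {N : ℕ} (s : S N) (x y : V4) : lin4 s (x + y) = lin4 s x + lin4 s y := by
  simp [lin4, lin_add]

/-- The linear part as a homomorphism. -/
noncomputable def lin4Hom {N : ℕ} (s : S N) : V4 →+ V4 where
  toFun := lin4 s
  map_zero' := by simp [lin4, lin_zero]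
  map_add' := lin4_add s

theorem lin4_zsmul {N : ℕ} (s : S N) (n : ℤ) (x : V4) : lin4 s (n • x) = n • lin4 s x :=
  map_zsmul (lin4Hom s) n x

theorem act_add {N : ℕ} (s : S N) (x y : V4) : act s (x + y) = act s x + lin4 s y := by
  unfold act aff lin4
  rw [Prod.fst_add, Prod.snd_add, lin_add, lin_add]
  ext <;> simp [add_assoc]

/-- The letters. -/
noncomputable def eX : Fin 16 ≃ (Fin 2 × Fin 2) × (Fin 2 × Fin 2) :=
  Fintype.equivOfCardEq (by simp)

/-- The letter as a vector. -/
noncomputable def I (x : Fin 16) : V4 :=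
  ((((eX x).1.1 : ℕ), ((eX x).1.2 : ℕ)), (((eX x).2.1 : ℕ), ((eX x).2.2 : ℕ)))

/-- The last binary digit. -/
def dz (a : ℤ) : Fin 2 := ⟨(a % 2).toNat, by omega⟩

theorem dz_val (a : ℤ) : ((dz a : ℕ) : ℤ) = a % 2 := by
  unfold dz
  simp only
  omega

/-- The last digit of a vector. -/
noncomputable def D (y : V4) : Fin 16 :=
  eX.symm ((dz y.1.1, dz y.1.2), (dz y.2.1, dz y.2.2))

/-- The quotient. -/
def Q (y : V4) : V4 := ((y.1.1 / 2, y.1.2 / 2), (y.2.1 / 2, y.2.2 / 2))

theorem dz_eq (i : Fin 2) (a : ℤ) : dz (((i : ℕ) : ℤ) + 2 * a) = i := by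
  apply Fin.ext
  have := dz_val (((i : ℕ) : ℤ) + 2 * a)
  have h2 := i.2
  omega

theorem D_I (x : Fin 16) (y : V4) : D (I x + (2 : ℤ) • y) = x := by
  unfold D I
  rw [Equiv.symm_apply_eq]
  simp only [Prod.fst_add, Prod.snd_add, Prod.smul_fst, Prod.smul_snd, smul_eq_mul, dz_eq]

theorem Q_I (x : Fin 16) (y : V4) : Q (I x + (2 : ℤ) • y) = y := by
  unfold Q I
  have h1 := (eX x).1.1.2
  have h2 := (eX x).1.2.2
  have h3 := (eX x).2.1.2
  have h4 := (eX x).2.2.2
  ext <;> simp <;> omega

theorem split (y : V4) : I (D y) + (2 : ℤ) • Q y = y := by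
  unfold I D Q
  rw [Equiv.apply_symm_apply]
  ext <;> simp [dz_val] <;> omega

/-- The section of a pair of affine maps. -/
noncomputable def sec {N : ℕ} (s : S N) (x : Fin 16) : S N :=
  (⟨ofAdd (Q (act s (I x))).1, s.1.right⟩, ⟨ofAdd (Q (act s (I x))).2, s.2.right⟩)

theorem act_sec {N : ℕ} (s : S N) (x : Fin 16) (y : V4) :
    act (sec s x) y = Q (act s (I x)) + lin4 s y := by
  unfold sec
  rfl

theorem act_cons {N : ℕ} (s : S N) (x : Fin 16) (y : V4) :
    act s (I x + (2 : ℤ) • y) = I (D (act s (I x))) + (2 : ℤ) • act (sec s x) y := by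
  rw [act_add, lin4_zsmul, act_sec, smul_add, ← add_assoc, split]

/-- The action on words. -/
noncomputable def psi {N : ℕ} : S N → List (Fin 16) → List (Fin 16)
  | _, [] => []
  | s, x :: w => D (act s (I x)) :: psi (sec s x) w

theorem sec_mul {N : ℕ} (s t : S N) (x : Fin 16) :
    sec (s * t) x = sec s (D (act t (I x))) * sec t x := by
  have h : Q (act (s * t) (I x)) = act (sec s (D (act t (I x)))) (Q (act t (I x))) := by
    rw [act_mul]
    conv_lhs => rw [← split (act t (I x)), act_cons, Q_I]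
  have h' : act (sec s (D (act t (I x)))) (Q (act t (I x))) =
    (toAdd (sec s (D (act t (I x))) * sec t x).1.left,
      toAdd (sec s (D (act t (I x))) * sec t x).2.left) := by
    unfold act aff
    simp only [Prod.fst_mul, Prod.snd_mul, SemidirectProduct.mul_left, toAdd_mul]
    rfl
  rw [h'] at h
  refine Prod.ext ?_ ?_
  · refine SemidirectProduct.ext ?_ rfl
    exact congrArg (fun z : V4 => ofAdd z.1) h
  · refine SemidirectProduct.ext ?_ rfl
    exact congrArg (fun z : V4 => ofAdd z.2) h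

theorem D_mul {N : ℕ} (s t : S N) (x : Fin 16) :
    D (act (s * t) (I x)) = D (act s (I (D (act t (I x))))) := by
  rw [act_mul]
  conv_lhs => rw [← split (act t (I x)), act_cons, D_I]

theorem psi_mul {N : ℕ} (s t : S N) (w : List (Fin 16)) : psi (s * t) w = psi s (psi t w) := by
  induction w generalizing s t with
  | nil => rfl
  | cons x w ih => rw [psi, psi, psi, D_mul, sec_mul, ih]

theorem act_I (x : Fin 16) : D (I x) = x ∧ Q (I x) = 0 := by
  have h1 := D_I x 0
  have h2 := Q_I x 0
  rw [smul_zero, add_zero] at h1 h2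
  exact ⟨h1, h2⟩

theorem sec_one {N : ℕ} (x : Fin 16) : sec (1 : S N) x = 1 := by
  unfold sec
  rw [act_one, (act_I x).2]
  rfl

theorem psi_one {N : ℕ} (w : List (Fin 16)) : psi (1 : S N) w = w := by
  induction w with
  | nil => rfl
  | cons x w ih => rw [psi, act_one, (act_I x).1, sec_one, ih]

/-- The action on words as a homomorphism. -/
noncomputable def Psi (N : ℕ) : S N →* Equiv.Perm (List (Fin 16)) where
  toFun s := ⟨psi s, psi s⁻¹, fun w => by rw [← psi_mul, inv_mul_cancel, psi_one],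
    fun w => by rw [← psi_mul, mul_inv_cancel, psi_one]⟩
  map_one' := by ext1 w; exact psi_one w
  map_mul' s t := by ext1 w; exact psi_mul s t w

theorem Psi_apply {N : ℕ} (s : S N) (w : List (Fin 16)) : Psi N s w = psi s w := rfl

/-- The value of a word. -/
noncomputable def vl : List (Fin 16) → V4
  | [] => 0
  | x :: w => I x + (2 : ℤ) • vl w

theorem vl_psi {N : ℕ} (s : S N) (w : List (Fin 16)) :
    ∃ z : V4, act s (vl w) = vl (psi s w) + (2 : ℤ) ^ w.length • z := by
  induction w generalizing s with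
  | nil => exact ⟨act s 0, by simp [vl, psi]⟩
  | cons x w ih =>
    obtain ⟨z, hz⟩ := ih (sec s x)
    refine ⟨z, ?_⟩
    rw [vl, act_cons, hz, psi, vl, smul_add, ← add_assoc, smul_smul, List.length_cons, pow_succ,
      mul_comm]

/-- The first `k` digits of a vector. -/
noncomputable def rp : ℕ → V4 → List (Fin 16)
  | 0, _ => []
  | k + 1, y => D y :: rp k (Q y)

theorem rp_length (k : ℕ) (y : V4) : (rp k y).length = k := by
  induction k generalizing y with
  | zero => rfl
  | succ k ih => simp [rp, ih]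

theorem rp_vl (k : ℕ) (y : V4) : ∃ z : V4, y = vl (rp k y) + (2 : ℤ) ^ k • z := by
  induction k generalizing y with
  | zero => exact ⟨y, by simp [rp, vl]⟩
  | succ k ih =>
    obtain ⟨z, hz⟩ := ih (Q y)
    refine ⟨z, ?_⟩
    rw [rp, vl, pow_succ, mul_comm, mul_smul, add_assoc, ← smul_add, ← hz, split]

theorem eq_of_dvd (a b : ℤ) (h : ∀ k : ℕ, ∃ z : ℤ, a = b + 2 ^ k * z) : a = b := by
  by_contra hne
  have hpos : 0 < |a - b| := abs_pos.2 (sub_ne_zero.2 hne)
  obtain ⟨z, hz⟩ := h (|a - b|.toNat)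
  have h1 : a - b = 2 ^ (|a - b|.toNat) * z := sub_eq_iff_eq_add'.2 hz
  have h2 : (2 : ℤ) ^ (|a - b|.toNat) ∣ |a - b| := (dvd_abs _ _).2 ⟨z, h1⟩
  have h3 := Int.le_of_dvd hpos h2
  have h4 : |a - b|.toNat < 2 ^ (|a - b|.toNat) := Nat.lt_two_pow_self
  have h5 : ((|a - b|.toNat : ℕ) : ℤ) = |a - b| := Int.toNat_of_nonneg hpos.le
  have h6 : ((|a - b|.toNat : ℕ) : ℤ) < 2 ^ (|a - b|.toNat) := by exact_mod_cast h4
  omega

theorem act_eq_self {N : ℕ} (s : S N) (h : ∀ w, psi s w = w) (y : V4) : act s y = y := by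
  have key : ∀ k : ℕ, ∃ z : V4, act s y = y + (2 : ℤ) ^ k • z := by
    intro k
    obtain ⟨z, hz⟩ := rp_vl k y
    obtain ⟨z', hz'⟩ := vl_psi s (rp k y)
    rw [h, rp_length] at hz'
    refine ⟨z' + lin4 s z - z, ?_⟩
    conv_lhs => rw [hz, act_add, hz', lin4_zsmul]
    conv_rhs => rw [hz]
    rw [smul_sub, smul_add]
    abel
  have h1 : ∀ f : V4 →+ ℤ, f (act s y) = f y := by
    intro f
    apply eq_of_dvd
    intro k
    obtain ⟨z, hz⟩ := key k
    exact ⟨f z, by rw [hz, map_add, map_zsmul]; rfl⟩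
  ext
  · exact h1 ((AddMonoidHom.fst ℤ ℤ).comp (AddMonoidHom.fst V V))
  · exact h1 ((AddMonoidHom.snd ℤ ℤ).comp (AddMonoidHom.fst V V))
  · exact h1 ((AddMonoidHom.fst ℤ ℤ).comp (AddMonoidHom.snd V V))
  · exact h1 ((AddMonoidHom.snd ℤ ℤ).comp (AddMonoidHom.snd V V))

theorem aff_inj {N : ℕ} (e : E N) (h : ∀ x, aff e x = x) : e = 1 := by
  have h0 : toAdd e.left = 0 := by
    have := h 0
    rwa [aff, lin_zero, add_zero] at this
  have h1 : e.left = 1 := by
    rw [← ofAdd_toAdd e.left, h0]; rfl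
  have h2 : phi N e.right = 1 := by
    ext1 x
    have := h (toAdd x)
    rw [aff, h0, zero_add, lin] at this
    exact Multiplicative.toAdd.injective this
  have h3 : e.right = 1 := phi_inj N (by rw [h2, map_one])
  exact SemidirectProduct.ext h1 h3

theorem Psi_inj (N : ℕ) : Function.Injective (Psi N) := by
  rw [injective_iff_map_eq_one]
  intro s hs
  have h : ∀ w, psi s w = w := fun w => by
    rw [← Psi_apply, hs]; rfl
  have h' := act_eq_self s h
  refine Prod.ext ?_ ?_
  · apply aff_inj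
    intro x
    exact congrArg Prod.fst (h' (x, 0))
  · apply aff_inj
    intro x
    exact congrArg Prod.snd (h' (0, x))

end Pool.Agent.N136.IS
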