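import Mathlib
import Pool.Agent.N136.IS.Aff

/-!
# The base automaton
-/

set_option autoImplicit false

namespace Pool.Agent.N136.IS

open Multiplicative

/-- The letters for the generators: the number of the generator, its sign, and whether the second
coordinate is the same as the first. -/
abbrev J (N : ℕ) : Type := Fin N × Bool × Bool

/-- The value of a letter. -/
def lt {N : ℕ} (j : J N) : FreeGroup (Fin N) × FreeGroup (Fin N) :=
  (if j.2.1 then FreeGroup.of j.1 else (FreeGroup.of j.1)⁻¹,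
    if j.2.2 then (if j.2.1 then FreeGroup.of j.1 else (FreeGroup.of j.1)⁻¹) else 1)

/-- The affine map with given linear part and translation. -/
def mk {N : ℕ} (h : FreeGroup (Fin N) × FreeGroup (Fin N)) (v : V4) : S N :=
  (⟨ofAdd v.1, h.1⟩, ⟨ofAdd v.2, h.2⟩)

theorem act_mk {N : ℕ} (h : FreeGroup (Fin N) × FreeGroup (Fin N)) (v y : V4) :
    act (mk h v) y = v + lin4 (mk h 0) y := rfl

theorem sec_mk {N : ℕ} (h : FreeGroup (Fin N) × FreeGroup (Fin N)) (v : V4) (x : Fin 16) :
    sec (mk h v) x = mk h (Q (act (mk h v) (I x))) := rfl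

/-- The size of a vector. -/
def sz (v : V4) : ℤ := |v.1.1| + |v.1.2| + |v.2.1| + |v.2.2|

/-- The size of an image. -/
noncomputable def sg {N : ℕ} (p : J N × Fin 16) : ℤ := sz (lin4 (mk (lt p.1) 0) (I p.2))

/-- A bound for the coordinates. -/
noncomputable def C (N : ℕ) : ℤ := ∑ p : J N × Fin 16, sg p

theorem sz_nonneg (v : V4) : 0 ≤ sz v := by unfold sz; positivity

theorem sg_nonneg {N : ℕ} (p : J N × Fin 16) : 0 ≤ sg p := sz_nonneg _

theorem sg_le_C {N : ℕ} (p : J N × Fin 16) : sg p ≤ C N :=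
  Finset.single_le_sum (fun p _ => sg_nonneg p) (Finset.mem_univ p)

theorem sz_le_C {N : ℕ} (j : J N) (x : Fin 16) : sz (lin4 (mk (lt j) 0) (I x)) ≤ C N := by
  have h := sg_le_C (j, x)
  unfold sg at h
  exact h

theorem C_nonneg (N : ℕ) : 0 ≤ C N := Finset.sum_nonneg fun p _ => sg_nonneg p

/-- The corner of the box. -/
noncomputable def cr (N : ℕ) : V4 := ((C N + 1, C N + 1), (C N + 1, C N + 1))

/-- The box. -/
noncomputable def Bx (N : ℕ) : Finset V4 := Finset.Icc (-cr N) (cr N)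

theorem mem_Bx {N : ℕ} (v : V4) : v ∈ Bx N ↔ (-(C N + 1) ≤ v.1.1 ∧ v.1.1 ≤ C N + 1) ∧
    (-(C N + 1) ≤ v.1.2 ∧ v.1.2 ≤ C N + 1) ∧ (-(C N + 1) ≤ v.2.1 ∧ v.2.1 ≤ C N + 1) ∧
    (-(C N + 1) ≤ v.2.2 ∧ v.2.2 ≤ C N + 1) := by
  unfold Bx cr
  rw [Finset.mem_Icc, Prod.le_def, Prod.le_def, Prod.le_def, Prod.le_def, Prod.le_def, Prod.le_def]
  simp only [Prod.fst_neg, Prod.snd_neg]
  tauto

theorem Q_mem {N : ℕ} (j : J N) (v : V4) (hv : v ∈ Bx N) (x : Fin 16) :
    Q (act (mk (lt j) v) (I x)) ∈ Bx N := by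
  rw [mem_Bx] at hv ⊢
  have h := sz_le_C j x
  rw [act_mk]
  generalize lin4 (mk (lt j) 0) (I x) = c at h
  unfold sz at h
  unfold Q
  simp only [Prod.fst_add, Prod.snd_add]
  have a1 := abs_nonneg c.1.1
  have a2 := abs_nonneg c.1.2
  have a3 := abs_nonneg c.2.1
  have a4 := abs_nonneg c.2.2
  have b1 := le_abs_self c.1.1
  have b2 := le_abs_self c.1.2
  have b3 := le_abs_self c.2.1
  have b4 := le_abs_self c.2.2
  have c1 := neg_le_abs c.1.1
  have c2 := neg_le_abs c.1.2
  have c3 := neg_le_abs c.2.1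
  have c4 := neg_le_abs c.2.2
  omega

/-- The enumeration of the box. -/
noncomputable def en (N : ℕ) : Fin (Bx N).card ≃ Bx N := (Bx N).equivFin.symm

/-- The base automaton. -/
noncomputable def bet (N : ℕ) (j : J N) (v : Fin (Bx N).card) (x : Fin 16) :
    Fin (Bx N).card × Fin 16 :=
  ((en N).symm ⟨Q (act (mk (lt j) (en N v)) (I x)), Q_mem j _ (en N v).2 x⟩,
    D (act (mk (lt j) (en N v)) (I x)))

/-- The values of the states. -/
noncomputable def vals {N : ℕ} (j : J N) (v : Fin (Bx N).card) : S N := mk (lt j) (en N v)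

theorem bet_nil {N : ℕ} (j : J N) (v : Fin (Bx N).card) : Psi N (vals j v) [] = [] := rfl

theorem bet_cons {N : ℕ} (j : J N) (v : Fin (Bx N).card) (x : Fin 16) (w : List (Fin 16)) :
    Psi N (vals j v) (x :: w) = (bet N j v x).2 :: Psi N (vals j (bet N j v x).1) w := by
  rw [Psi_apply, Psi_apply, psi]
  unfold bet
  dsimp only
  rw [vals, vals, Equiv.apply_symm_apply, sec_mk]

/-- The linear part. -/
noncomputable def linH (N : ℕ) : S N →* FreeGroup (Fin N) × FreeGroup (Fin N) :=
  MonoidHom.prodMap SemidirectProduct.rightHom SemidirectProduct.rightHom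

theorem linH_apply {N : ℕ} (s : S N) : linH N s = (s.1.right, s.2.right) := rfl

/-- The translations. -/
def tr {N : ℕ} (v : V4) : S N := mk 1 v

theorem tr_add {N : ℕ} (v w : V4) : (tr (v + w) : S N) = tr v * tr w := by
  refine Prod.ext ?_ ?_
  · refine SemidirectProduct.ext ?_ ?_
    · show _ = _ * phi N 1 _
      rw [map_one]; rfl
    · show (1 : FreeGroup (Fin N)) = 1 * 1
      rw [one_mul]
  · refine SemidirectProduct.ext ?_ ?_
    · show _ = _ * phi N 1 _
      rw [map_one]; rfl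
    · show (1 : FreeGroup (Fin N)) = 1 * 1
      rw [one_mul]

/-- The translations as a homomorphism. -/
def trHom (N : ℕ) : Multiplicative V4 →* S N where
  toFun v := tr (toAdd v)
  map_one' := rfl
  map_mul' v w := tr_add _ _

theorem mk_eq {N : ℕ} (h : FreeGroup (Fin N) × FreeGroup (Fin N)) (v : V4) :
    mk h v = tr v * mk h 0 := by
  refine Prod.ext ?_ ?_
  · refine SemidirectProduct.ext ?_ ?_
    · show _ = _ * phi N 1 _
      rw [map_one]
      show ofAdd v.1 = ofAdd v.1 * 1
      rw [mul_one]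
    · show h.1 = 1 * h.1
      rw [one_mul]
  · refine SemidirectProduct.ext ?_ ?_
    · show _ = _ * phi N 1 _
      rw [map_one]
      show ofAdd v.2 = ofAdd v.2 * 1
      rw [mul_one]
    · show h.2 = 1 * h.2
      rw [one_mul]

/-- A subgroup containing the unit translations contains all translations. -/
theorem tr_mem {N : ℕ} (K : Subgroup (S N)) (h1 : tr ((1, 0), (0, 0)) ∈ K)
    (h2 : tr ((0, 1), (0, 0)) ∈ K) (h3 : tr ((0, 0), (1, 0)) ∈ K) (h4 : tr ((0, 0), (0, 1)) ∈ K)
    (v : V4) : tr v ∈ K := by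
  have e : (tr v : S N) = tr ((1, 0), (0, 0)) ^ v.1.1 * tr ((0, 1), (0, 0)) ^ v.1.2 *
      tr ((0, 0), (1, 0)) ^ v.2.1 * tr ((0, 0), (0, 1)) ^ v.2.2 := by
    have hz : ∀ (u : V4) (n : ℤ), (tr u : S N) ^ n = tr (n • u) := by
      intro u n
      have := map_zpow (trHom N) (ofAdd u) n
      rw [← ofAdd_zsmul] at this
      exact this.symm
    rw [hz, hz, hz, hz, ← tr_add, ← tr_add, ← tr_add]
    congr 1
    ext <;> simp
  rw [e]
  exact K.mul_mem (K.mul_mem (K.mul_mem (K.zpow_mem h1 _) (K.zpow_mem h2 _)) (K.zpow_mem h3 _))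
    (K.zpow_mem h4 _)

theorem ker_mem {N : ℕ} (s : S N) (h : linH N s = 1) : ∃ v, s = tr v := by
  refine ⟨(toAdd s.1.left, toAdd s.2.left), ?_⟩
  rw [linH_apply] at h
  refine Prod.ext ?_ ?_
  · exact SemidirectProduct.ext rfl (congrArg Prod.fst h)
  · exact SemidirectProduct.ext rfl (congrArg Prod.snd h)

/-- The subgroup of pairs of elements of the free group generated by the values of words. -/
def HΩ {N : ℕ} (Ω : List (List (J N))) : Subgroup (FreeGroup (Fin N) × FreeGroup (Fin N)) :=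
  Subgroup.closure {h | ∃ ω ∈ Ω, h = (ω.map lt).prod}

theorem linH_evs {N : ℕ} (l : List (J N × Fin (Bx N).card)) :
    linH N (evs vals l) = ((l.map Prod.fst).map lt).prod := by
  unfold evs
  rw [map_list_prod, List.map_map, List.map_map]
  rfl

theorem unit_mem {N : ℕ} : (((1, 0), (0, 0)) : V4) ∈ Bx N ∧ (((0, 1), (0, 0)) : V4) ∈ Bx N ∧
    (((0, 0), (1, 0)) : V4) ∈ Bx N ∧ (((0, 0), (0, 1)) : V4) ∈ Bx N ∧ (0 : V4) ∈ Bx N := by
  have := C_nonneg N
  refine ⟨?_, ?_, ?_, ?_, ?_⟩ <;> rw [mem_Bx] <;> simp <;> omega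

/-- The group generated by the values of the states over a list of words. -/
theorem closure_eq {N : ℕ} (Ω : List (List (J N))) (j : J N) (ω : List (J N)) (hω : (j :: ω) ∈ Ω) :
    Subgroup.closure {s | ∃ l : List (J N × Fin (Bx N).card), l.map Prod.fst ∈ Ω ∧
      s = evs vals l} = (HΩ Ω).comap (linH N) := by
  apply le_antisymm
  · rw [Subgroup.closure_le]
    rintro _ ⟨l, hl, rfl⟩
    show linH N _ ∈ HΩ Ω
    rw [linH_evs]
    exact Subgroup.subset_closure ⟨_, hl, rfl⟩
  · set K := Subgroup.closure {s | ∃ l : List (J N × Fin (Bx N).card), l.map Prod.fst ∈ Ω ∧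
      s = evs vals l} with hK
    have hu := unit_mem (N := N)
    have htr : ∀ v ∈ Bx N, tr v ∈ K := by
      intro v hv
      let z : Fin (Bx N).card := (en N).symm ⟨0, hu.2.2.2.2⟩
      let v' : Fin (Bx N).card := (en N).symm ⟨v, hv⟩
      let r : List (J N × Fin (Bx N).card) := ω.map fun i => (i, z)
      have hr : r.map Prod.fst = ω := by
        simp [r, List.map_map, Function.comp_def]
      have k1 : evs vals ((j, v') :: r) ∈ K :=
        Subgroup.subset_closure ⟨_, by simpa [hr] using hω, rfl⟩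
      have k2 : evs vals ((j, z) :: r) ∈ K :=
        Subgroup.subset_closure ⟨_, by simpa [hr] using hω, rfl⟩
      have e : (tr v : S N) = evs vals ((j, v') :: r) * (evs vals ((j, z) :: r))⁻¹ := by
        have e1 : evs vals ((j, v') :: r) = vals j v' * evs vals r := by simp [evs]
        have e2 : evs vals ((j, z) :: r) = vals j z * evs vals r := by simp [evs]
        have e3 : vals j v' = mk (lt j) v := by simp [vals, v']
        have e4 : vals j z = mk (lt j) 0 := by simp [vals, z]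
        rw [e1, e2, e3, e4, mk_eq]
        group
      rw [e]
      exact K.mul_mem k1 (K.inv_mem k2)
    have htr' : ∀ v : V4, tr v ∈ K :=
      tr_mem K (htr _ hu.1) (htr _ hu.2.1) (htr _ hu.2.2.1) (htr _ hu.2.2.2.1)
    have hle : HΩ Ω ≤ K.map (linH N) := by
      unfold HΩ
      rw [Subgroup.closure_le]
      rintro _ ⟨ω', hω', rfl⟩
      let z : Fin (Bx N).card := (en N).symm ⟨0, hu.2.2.2.2⟩
      refine ⟨evs vals (ω'.map fun i => (i, z)), ?_, ?_⟩
      · apply Subgroup.subset_closure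
        refine ⟨_, ?_, rfl⟩
        simpa [List.map_map, Function.comp_def] using hω'
      · rw [linH_evs]
        simp [List.map_map, Function.comp_def]
    intro s hs
    obtain ⟨k, hk, hks⟩ := hle hs
    obtain ⟨v, hv⟩ := ker_mem (s * k⁻¹) (by rw [map_mul, map_inv, hks, mul_inv_cancel])
    have : s = tr v * k := by rw [← hv]; group
    rw [this]
    exact K.mul_mem (htr' v) hk

/-- The group of the automaton of a list of words. -/
theorem grp_iso {N : ℕ} (Ω : List (List (J N))) (j : J N) (ω : List (J N)) (hω : (j :: ω) ∈ Ω) :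
    Nonempty (Grp (code (bet N) Ω) ≃* (HΩ Ω).comap (linH N)) := by
  have h := grp_eq (bet N) (Psi N) vals bet_nil bet_cons Ω
  rw [closure_eq Ω j ω hω] at h
  rw [h]
  exact ⟨(Subgroup.equivMapOfInjective _ (Psi N) (Psi_inj N)).symm⟩

theorem valid {N : ℕ} (Ω : List (List (J N))) (hΩ : Ω ≠ []) : Valid (code (bet N) Ω) := by
  apply code_valid (bet N) (Psi N) vals bet_nil bet_cons (by norm_num)
  obtain ⟨ω, hω⟩ := List.exists_mem_of_ne_nil Ω hΩ
  apply List.ne_nil_of_mem (a := ω.map fun i => (i, (en N).symm ⟨0, (unit_mem (N := N)).2.2.2.2⟩))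
  rw [mem_states]
  simpa [List.map_map, Function.comp_def] using hω

end Pool.Agent.N136.IS
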