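import Mathlib
import Pool.Agent.N136.IS.Box
import Pool.Agent.Helper180.FreeMetric

/-!
# Commuting decompositions
-/

set_option autoImplicit false

namespace Pool.Agent.N136.IS

open Multiplicative Pool.Agent.Helper180.FreeMetric

/-- The group is generated by two nontrivial subgroups which commute with each other. -/
def Dec (G : Type) [Group G] : Prop :=
  ∃ A B : Subgroup G, A ≠ ⊥ ∧ B ≠ ⊥ ∧ (∀ a ∈ A, ∀ b ∈ B, a * b = b * a) ∧ A ⊔ B = ⊤

theorem Dec.congr {G G' : Type} [Group G] [Group G'] (e : G ≃* G') (h : Dec G) : Dec G' := by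
  obtain ⟨A, B, hA, hB, hc, ht⟩ := h
  refine ⟨A.map e.toMonoidHom, B.map e.toMonoidHom, ?_, ?_, ?_, ?_⟩
  · rwa [Ne, Subgroup.map_eq_bot_iff_of_injective _ e.injective]
  · rwa [Ne, Subgroup.map_eq_bot_iff_of_injective _ e.injective]
  · rintro _ ⟨a, ha, rfl⟩ _ ⟨b, hb, rfl⟩
    rw [← map_mul, hc a ha b hb, map_mul]
  · rw [← Subgroup.map_sup, ht]
    exact Subgroup.map_top_of_surjective _ e.surjective

theorem dec_prod {N : ℕ} : Dec (S N) := by
  refine ⟨Subgroup.prod ⊤ ⊥, Subgroup.prod ⊥ ⊤, ?_, ?_, ?_, ?_⟩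
  · intro h
    have h1 : (tr ((1, 0), (0, 0)) : S N) ∈ Subgroup.prod (⊤ : Subgroup (E N)) ⊥ :=
      Subgroup.mem_prod.2 ⟨Subgroup.mem_top _, rfl⟩
    rw [h, Subgroup.mem_bot] at h1
    have h2 : ofAdd ((1, 0) : V) = 1 := congrArg (fun s : S N => s.1.left) h1
    have h3 : ((1, 0) : V) = 0 := h2
    simp at h3
  · intro h
    have h1 : (tr ((0, 0), (1, 0)) : S N) ∈ Subgroup.prod ⊥ (⊤ : Subgroup (E N)) :=
      Subgroup.mem_prod.2 ⟨rfl, Subgroup.mem_top _⟩
    rw [h, Subgroup.mem_bot] at h1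
    have h2 : ofAdd ((1, 0) : V) = 1 := congrArg (fun s : S N => s.2.left) h1
    have h3 : ((1, 0) : V) = 0 := h2
    simp at h3
  · rintro ⟨a1, a2⟩ ha ⟨b1, b2⟩ hb
    rw [Subgroup.mem_prod, Subgroup.mem_bot] at ha hb
    have h1 : a2 = 1 := ha.2
    have h2 : b1 = 1 := hb.1
    subst h1 h2
    simp
  · rw [eq_top_iff]
    rintro ⟨x, y⟩ -
    have : ((x, y) : S N) = (x, 1) * (1, y) := by simp
    rw [this]
    exact Subgroup.mul_mem_sup (Subgroup.mem_prod.2 ⟨Subgroup.mem_top _, rfl⟩)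
      (Subgroup.mem_prod.2 ⟨rfl, Subgroup.mem_top _⟩)

/-- Two commuting subgroups which generate a free group. -/
theorem free_dec {N : ℕ} (hN : 2 ≤ N) (A B : Subgroup (FreeGroup (Fin N)))
    (hc : ∀ a ∈ A, ∀ b ∈ B, a * b = b * a) (ht : A ⊔ B = ⊤) :
    (∀ a ∈ A, a = 1) ∨ (∀ b ∈ B, b = 1) := by
  by_contra hcon
  push Not at hcon
  obtain ⟨⟨h, hA, h1⟩, ⟨k, hB, k1⟩⟩ := hcon
  have hB' : ∀ b ∈ B, b * h = h * b := fun b hb => (hc h hA b hb).symm
  have hA' : ∀ a ∈ A, a * h = h * a := fun a ha =>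
    comm_trans k1 (hc a ha k hB) (hc h hA k hB)
  have hall : ∀ x : FreeGroup (Fin N), x * h = h * x := by
    intro x
    have hle : A ⊔ B ≤ Subgroup.centralizer {h} := by
      apply sup_le
      · intro a ha
        rw [Subgroup.mem_centralizer_singleton_iff]
        exact hA' a ha
      · intro b hb
        rw [Subgroup.mem_centralizer_singleton_iff]
        exact hB' b hb
    have : x ∈ A ⊔ B := by rw [ht]; exact Subgroup.mem_top _
    have := hle this
    rwa [Subgroup.mem_centralizer_singleton_iff] at this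
  have hab := comm_trans h1 (hall (FreeGroup.of (⟨0, by omega⟩ : Fin N)))
    (hall (FreeGroup.of (⟨1, by omega⟩ : Fin N)))
  have h2 := congrArg (FreeGroup.lift (fun i : Fin N =>
    if i.1 = 0 then (Equiv.swap (0 : Fin 3) 1) else Equiv.swap (1 : Fin 3) 2)) hab
  rw [map_mul, map_mul, FreeGroup.lift_apply_of, FreeGroup.lift_apply_of] at h2
  simp only [if_true, one_ne_zero, if_false] at h2
  revert h2
  decide

/-- The common fixed points of the free group. -/
theorem fix_eq {N : ℕ} (hN : 2 ≤ N) (v : Pool.Agent.H905R2.Aut.Z2)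
    (h : ∀ g : FreeGroup (Fin N), phi N g v = v) : v = 1 := by
  have h0 := h (FreeGroup.of ⟨0, by omega⟩)
  have h1 := h (FreeGroup.of ⟨1, by omega⟩)
  unfold phi Pool.Agent.Helper580.Law.emb at h0 h1
  simp only [MonoidHom.comp_apply, FreeGroup.lift_apply_of, pow_zero, one_mul, inv_one, mul_one,
    pow_one, map_mul, map_inv, Bool.false_eq_true, if_false, if_true] at h0 h1
  rw [mul_assoc, MulAut.mul_apply] at h1
  have h1' : Pool.Agent.H905R2.Aut.shearB (Pool.Agent.H905R2.Aut.shearA⁻¹ v) =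
      Pool.Agent.H905R2.Aut.shearA⁻¹ v := by
    have := congrArg (fun z => Pool.Agent.H905R2.Aut.shearA⁻¹ z) h1
    simpa using this
  have e1 : (toAdd v).2 + 3 * (toAdd v).1 = (toAdd v).2 :=
    congrArg (fun z : Pool.Agent.H905R2.Aut.Z2 => (toAdd z).2) h0
  have e2 : (toAdd v).2 + 3 * ((toAdd v).1 - 3 * (toAdd v).2) = (toAdd v).2 :=
    congrArg (fun z : Pool.Agent.H905R2.Aut.Z2 => (toAdd z).2) h1'
  have e3 : (toAdd v).1 = 0 := by omega
  have e4 : (toAdd v).2 = 0 := by omega
  have : toAdd v = 0 := Prod.ext e3 e4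
  rw [← ofAdd_toAdd v, this]
  rfl

theorem bot_aux {N : ℕ} (hN : 2 ≤ N) (A B : Subgroup (E N))
    (hc : ∀ a ∈ A, ∀ b ∈ B, a * b = b * a) (ht : A ⊔ B = ⊤)
    (hB : ∀ b ∈ B, b.right = 1) : B = ⊥ := by
  rw [eq_bot_iff]
  intro b hb
  rw [Subgroup.mem_bot]
  have hb1 := hB b hb
  refine SemidirectProduct.ext ?_ hb1
  apply fix_eq hN
  -- the stabiliser
  let T : Subgroup (E N) :=
    { carrier := {e | phi N e.right b.left = b.left}
      mul_mem' := by
        intro x y hx hy
        show phi N (x * y).right b.left = b.left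
        rw [SemidirectProduct.mul_right, map_mul, MulAut.mul_apply]
        rw [show phi N y.right b.left = b.left from hy]
        exact hx
      one_mem' := by
        show phi N (1 : E N).right b.left = b.left
        rw [SemidirectProduct.one_right, map_one]; rfl
      inv_mem' := by
        intro x hx
        have hx' : phi N x.right b.left = b.left := hx
        show phi N (x⁻¹).right b.left = b.left
        rw [SemidirectProduct.inv_right, map_inv]
        conv_lhs => rw [← hx']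
        simp }
  have hAT : A ≤ T := by
    intro a ha
    have h1 := congrArg SemidirectProduct.left (hc a ha b hb)
    rw [SemidirectProduct.mul_left, SemidirectProduct.mul_left, hb1, map_one, MulAut.one_apply,
      mul_comm] at h1
    exact mul_right_cancel h1
  have hBT : B ≤ T := by
    intro b' hb'
    show phi N b'.right b.left = b.left
    rw [hB b' hb', map_one]; rfl
  have hT : T = ⊤ := by
    rw [eq_top_iff, ← ht]
    exact sup_le hAT hBT
  intro g
  have : (SemidirectProduct.inr g : E N) ∈ T := by rw [hT]; exact Subgroup.mem_top _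
  exact this

/-- Commuting decompositions of the group of affine maps are trivial. -/
theorem aff_dec {N : ℕ} (hN : 2 ≤ N) (A B : Subgroup (E N))
    (hc : ∀ a ∈ A, ∀ b ∈ B, a * b = b * a) (ht : A ⊔ B = ⊤) : A = ⊥ ∨ B = ⊥ := by
  let π : E N →* FreeGroup (Fin N) := SemidirectProduct.rightHom
  have h := free_dec hN (A.map π) (B.map π) (by
    rintro _ ⟨a, ha, rfl⟩ _ ⟨b, hb, rfl⟩
    rw [← map_mul, hc a ha b hb, map_mul]) (by
    rw [← Subgroup.map_sup, ht]
    exact Subgroup.map_top_of_surjective _ SemidirectProduct.rightHom_surjective)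
  rcases h with h | h
  · left
    exact bot_aux hN B A (fun b hb a ha => (hc a ha b hb).symm) (by rw [sup_comm]; exact ht)
      (fun a ha => h _ ⟨a, ha, rfl⟩)
  · right
    exact bot_aux hN A B hc ht (fun b hb => h _ ⟨b, hb, rfl⟩)

/-- Commuting decompositions of the groups of the automata. -/
theorem dec_comap {N : ℕ} (hN : 2 ≤ N) (H : Subgroup (FreeGroup (Fin N) × FreeGroup (Fin N)))
    (hd : ∀ g, (g, g) ∈ H) (h : Dec (H.comap (linH N))) (u : FreeGroup (Fin N)) : (u, 1) ∈ H := by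
  obtain ⟨A, B, hA, hB, hc, ht⟩ := h
  let G := H.comap (linH N)
  let p1 : G →* E N := (MonoidHom.fst _ _).comp G.subtype
  let p2 : G →* E N := (MonoidHom.snd _ _).comp G.subtype
  have s1 : Function.Surjective p1 := by
    intro e
    exact ⟨⟨(e, ⟨1, e.right⟩), hd e.right⟩, rfl⟩
  have s2 : Function.Surjective p2 := by
    intro e
    exact ⟨⟨(⟨1, e.right⟩, e), hd e.right⟩, rfl⟩
  have d1 := aff_dec hN (A.map p1) (B.map p1) (by
    rintro _ ⟨a, ha, rfl⟩ _ ⟨b, hb, rfl⟩
    rw [← map_mul, hc a ha b hb, map_mul]) (by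
    rw [← Subgroup.map_sup, ht]
    exact Subgroup.map_top_of_surjective _ s1)
  have d2 := aff_dec hN (A.map p2) (B.map p2) (by
    rintro _ ⟨a, ha, rfl⟩ _ ⟨b, hb, rfl⟩
    rw [← map_mul, hc a ha b hb, map_mul]) (by
    rw [← Subgroup.map_sup, ht]
    exact Subgroup.map_top_of_surjective _ s2)
  -- the auxiliary subgroup
  let T : Subgroup G :=
    { carrier := {g | (g.1.1.right, (1 : FreeGroup (Fin N))) ∈ H}
      mul_mem' := by
        intro x y hx hy
        have := H.mul_mem hx hy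
        simpa using this
      one_mem' := H.one_mem
      inv_mem' := by
        intro x hx
        have := H.inv_mem hx
        simpa using this }
  have t1 : ∀ K : Subgroup G, K.map p1 = ⊥ → K ≤ T := by
    intro K hK g hg
    have : p1 g = 1 := by
      have : p1 g ∈ K.map p1 := ⟨g, hg, rfl⟩
      rwa [hK, Subgroup.mem_bot] at this
    have h1 : g.1.1 = 1 := this
    show (g.1.1.right, (1 : FreeGroup (Fin N))) ∈ H
    rw [h1]
    exact H.one_mem
  have t2 : ∀ K : Subgroup G, K.map p2 = ⊥ → K ≤ T := by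
    intro K hK g hg
    have : p2 g = 1 := by
      have : p2 g ∈ K.map p2 := ⟨g, hg, rfl⟩
      rwa [hK, Subgroup.mem_bot] at this
    have h1 : g.1.2 = 1 := this
    have h2 : linH N g.1 ∈ H := g.2
    rw [linH_apply, h1] at h2
    exact h2
  have hbot : ∀ K : Subgroup G, K.map p1 = ⊥ → K.map p2 = ⊥ → K = ⊥ := by
    intro K h1 h2
    rw [eq_bot_iff]
    intro g hg
    have a1 : p1 g = 1 := by
      have : p1 g ∈ K.map p1 := ⟨g, hg, rfl⟩
      rwa [h1, Subgroup.mem_bot] at this
    have a2 : p2 g = 1 := by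
      have : p2 g ∈ K.map p2 := ⟨g, hg, rfl⟩
      rwa [h2, Subgroup.mem_bot] at this
    rw [Subgroup.mem_bot]
    exact Subtype.ext (Prod.ext a1 a2)
  have hT : A ≤ T ∧ B ≤ T := by
    rcases d1 with e1 | e1 <;> rcases d2 with e2 | e2
    · exact absurd (hbot A e1 e2) hA
    · exact ⟨t1 A e1, t2 B e2⟩
    · exact ⟨t2 A e2, t1 B e1⟩
    · exact absurd (hbot B e1 e2) hB
  have hT' : T = ⊤ := by
    rw [eq_top_iff, ← ht]
    exact sup_le hT.1 hT.2
  have hu : (⟨(⟨1, u⟩, ⟨1, u⟩), hd u⟩ : G) ∈ T := by rw [hT']; exact Subgroup.mem_top _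
  exact hu

end Pool.Agent.N136.IS
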