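import Mathlib
import Pool.Agent.N136.IS.Dec
import Pool.Agent.TH716.C3.Main
import Pool.Agent.TH111.J524

/-!
# The isomorphism problem for groups of automata
-/

set_option autoImplicit false

namespace Pool.Agent.N136.IS

open Pool.Agent.TH716.C3 (ev rl gN rsn rsn_lt gN_lt primrec_rsn)

section words

variable (m : ℕ)

/-- The number of generators. -/
abbrev nn : ℕ := 2 * m + 6

/-- The letter of the automaton for a letter of a relator. -/
def cL (p : ℕ × Bool) : J (nn m) := (⟨p.1 % (2 * m + 6), Nat.mod_lt _ (by omega)⟩, p.2, false)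

/-- The generators of the free group. -/
def gF (i : ℕ) : FreeGroup (Fin (nn m)) :=
  FreeGroup.of ⟨i % (2 * m + 6), Nat.mod_lt _ (by omega)⟩

theorem prod_cL (r : List (ℕ × Bool)) : ((r.map (cL m)).map lt).prod = (ev (gF m) r, 1) := by
  induction r with
  | nil => rfl
  | cons x r ih =>
    rw [List.map_cons, List.map_cons, List.prod_cons, ih]
    unfold ev
    rw [List.map_cons, List.prod_cons]
    unfold lt cL gF
    simp

/-- The relators. -/
def rels (R : List (List (Fin m × Bool))) (w : List (Fin m × Bool)) : List (List (ℕ × Bool)) :=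
  (List.range (2 * m + 6)).map (rl (gN m)) ++ rsn R w

/-- The words of the automaton. -/
def Om (R : List (List (Fin m × Bool))) (w : List (Fin m × Bool)) : List (List (J (nn m))) :=
  (List.finRange (nn m)).map (fun i => [(i, true, true)]) ++ (rels m R w).map (List.map (cL m))

theorem rels_lt (R : List (List (Fin m × Bool))) (w : List (Fin m × Bool)) :
    ∀ r ∈ rels m R w, ∀ x ∈ r, x.1 < 2 * m + 6 := by
  intro r hr x hx
  unfold rels at hr
  rw [List.mem_append, List.mem_map] at hr
  rcases hr with ⟨h, hh, rfl⟩ | hr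
  · rw [List.mem_range] at hh
    have := gN_lt m h hh
    unfold rl at hx
    simp only [List.mem_cons, List.not_mem_nil, or_false] at hx
    rcases hx with rfl | rfl | rfl | rfl | rfl <;> assumption
  · exact (rsn_lt R w r hr).2 x hx

theorem diag_mem (R : List (List (Fin m × Bool))) (w : List (Fin m × Bool))
    (g : FreeGroup (Fin (nn m))) : (g, g) ∈ HΩ (Om m R w) := by
  let d : FreeGroup (Fin (nn m)) →* FreeGroup (Fin (nn m)) × FreeGroup (Fin (nn m)) :=
    (MonoidHom.id _).prod (MonoidHom.id _)
  have h : (⊤ : Subgroup (FreeGroup (Fin (nn m)))) ≤ (HΩ (Om m R w)).comap d := by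
    rw [← FreeGroup.closure_range_of, Subgroup.closure_le]
    rintro _ ⟨i, rfl⟩
    show (FreeGroup.of i, FreeGroup.of i) ∈ HΩ (Om m R w)
    apply Subgroup.subset_closure
    refine ⟨[(i, true, true)], ?_, by simp [lt]⟩
    unfold Om
    rw [List.mem_append]
    left
    exact List.mem_map.2 ⟨i, List.mem_finRange _, rfl⟩
  exact h (Subgroup.mem_top g)

theorem rel_mem (R : List (List (Fin m × Bool))) (w : List (Fin m × Bool)) (r : List (ℕ × Bool))
    (hr : r ∈ rels m R w) : (ev (gF m) r, 1) ∈ HΩ (Om m R w) := by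
  apply Subgroup.subset_closure
  refine ⟨r.map (cL m), ?_, (prod_cL m r).symm⟩
  unfold Om
  rw [List.mem_append]
  right
  exact List.mem_map.2 ⟨r, hr, rfl⟩

theorem ev_map {G G' : Type} [Group G] [Group G'] (f : G →* G') (γ : ℕ → G)
    (r : List (ℕ × Bool)) : f (ev γ r) = ev (fun i => f (γ i)) r := by
  unfold ev
  rw [map_list_prod, List.map_map]
  congr 1
  apply List.map_congr_left
  intro x _
  simp only [Function.comp_apply]
  split_ifs <;> simp

theorem yes_case (R : List (List (Fin m × Bool))) (w : List (Fin m × Bool))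
    (hw : FreeGroup.mk w ∈ Subgroup.normalClosure {x | ∃ r ∈ R, x = FreeGroup.mk r}) :
    HΩ (Om m R w) = ⊤ := by
  set H := HΩ (Om m R w) with hH
  let K : Subgroup (FreeGroup (Fin (nn m))) := H.comap (MonoidHom.inl _ _)
  have hK : ∀ g, g ∈ K ↔ (g, (1 : FreeGroup (Fin (nn m)))) ∈ H := fun g => Iff.rfl
  have hn : K.Normal := by
    refine ⟨fun g hg h => ?_⟩
    rw [hK] at hg ⊢
    have := H.mul_mem (H.mul_mem (diag_mem m R w h) hg) (H.inv_mem (diag_mem m R w h))
    simpa using this
  let π := QuotientGroup.mk' K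
  have hev : ∀ r ∈ rels m R w, ev (fun i => π (gF m i)) r = 1 := by
    intro r hr
    rw [← ev_map]
    exact (QuotientGroup.eq_one_iff _).2 (rel_mem m R w r hr)
  have hs := Pool.Agent.TH111.J524.result.1 m R w hw (FreeGroup (Fin (nn m)) ⧸ K)
    (fun i => π (gF m i)) (by
      intro h hh
      apply hev
      unfold rels
      rw [List.mem_append]
      left
      exact List.mem_map.2 ⟨h, List.mem_range.2 hh, rfl⟩) (by
      intro r hr h _
      rw [hev r (by unfold rels; rw [List.mem_append]; right; exact hr)]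
      exact Commute.one_left _)
  have hKt : K = ⊤ := by
    rw [eq_top_iff, ← FreeGroup.closure_range_of, Subgroup.closure_le]
    rintro _ ⟨i, rfl⟩
    have h1 := (QuotientGroup.eq_one_iff _).1 (hs i.1 i.2)
    have h2 : gF m i.1 = FreeGroup.of i := by
      unfold gF
      congr 1
      exact Fin.ext (Nat.mod_eq_of_lt i.2)
    rw [h2] at h1
    exact h1
  rw [eq_top_iff]
  rintro ⟨a, b⟩ -
  have h1 : (a * b⁻¹, (1 : FreeGroup (Fin (nn m)))) ∈ H := by
    rw [← hK, hKt]; exact Subgroup.mem_top _
  have h2 := H.mul_mem h1 (diag_mem m R w b)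
  simpa using h2

theorem no_case (R : List (List (Fin m × Bool))) (w : List (Fin m × Bool))
    (hw : FreeGroup.mk w ∉ Subgroup.normalClosure {x | ∃ r ∈ R, x = FreeGroup.mk r}) :
    ¬ ∀ u, (u, 1) ∈ HΩ (Om m R w) := by
  intro hu
  obtain ⟨G, _, γ, h1, h2, h3⟩ := Pool.Agent.TH111.J524.result.2 m R w hw
  let θ : FreeGroup (Fin (nn m)) →* G := FreeGroup.lift fun i => γ i.1
  have hg : ∀ i < 2 * m + 6, θ (gF m i) = γ i := by
    intro i hi
    unfold gF
    rw [FreeGroup.lift_apply_of]
    simp only
    rw [Nat.mod_eq_of_lt hi]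
  have hev : ∀ r ∈ rels m R w, θ (ev (gF m) r) = 1 := by
    intro r hr
    rw [ev_map]
    have hr1 : ev γ r = 1 := by
      have hr' := hr
      unfold rels at hr'
      rw [List.mem_append, List.mem_map] at hr'
      rcases hr' with ⟨h, hh, rfl⟩ | hr'
      · exact h1 h (List.mem_range.1 hh)
      · exact h2 r hr'
    rw [← hr1]
    unfold ev
    congr 1
    apply List.map_congr_left
    intro x hx
    dsimp only
    rw [hg x.1 (rels_lt m R w r hr x hx)]
  let Eq : Subgroup (FreeGroup (Fin (nn m)) × FreeGroup (Fin (nn m))) :=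
    { carrier := {p | θ p.1 = θ p.2}
      mul_mem' := by
        intro x y hx hy
        show θ (x.1 * y.1) = θ (x.2 * y.2)
        rw [map_mul, map_mul, show θ x.1 = θ x.2 from hx, show θ y.1 = θ y.2 from hy]
      one_mem' := rfl
      inv_mem' := by
        intro x hx
        show θ (x.1⁻¹) = θ (x.2⁻¹)
        rw [map_inv, map_inv, show θ x.1 = θ x.2 from hx] }
  have hle : HΩ (Om m R w) ≤ Eq := by
    unfold HΩ
    rw [Subgroup.closure_le]
    rintro _ ⟨ω, hω, rfl⟩
    unfold Om at hω
    rw [List.mem_append, List.mem_map, List.mem_map] at hω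
    rcases hω with ⟨i, -, rfl⟩ | ⟨r, hr, rfl⟩
    · show θ _ = θ _
      simp [lt]
    · rw [prod_cL]
      show θ (ev (gF m) r) = θ 1
      rw [hev r hr, map_one]
  have h4 : θ (gF m 0) = θ 1 := hle (hu (gF m 0))
  rw [map_one, hg 0 (by omega)] at h4
  exact h3 h4

/-- All letters. -/
def Om0 : List (List (J (nn m))) :=
  (List.finRange (nn m)).map (fun i => [(i, true, true)]) ++
    (List.finRange (nn m)).map (fun i => [(i, true, false)])

theorem H_Om0 : HΩ (Om0 m) = ⊤ := by
  set H := HΩ (Om0 m) with hH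
  have hd : ∀ g, (g, g) ∈ H := by
    intro g
    let d : FreeGroup (Fin (nn m)) →* FreeGroup (Fin (nn m)) × FreeGroup (Fin (nn m)) :=
      (MonoidHom.id _).prod (MonoidHom.id _)
    have h : (⊤ : Subgroup (FreeGroup (Fin (nn m)))) ≤ H.comap d := by
      rw [← FreeGroup.closure_range_of, Subgroup.closure_le]
      rintro _ ⟨i, rfl⟩
      show (FreeGroup.of i, FreeGroup.of i) ∈ H
      apply Subgroup.subset_closure
      refine ⟨[(i, true, true)], ?_, by simp [lt]⟩
      unfold Om0
      rw [List.mem_append]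
      left
      exact List.mem_map.2 ⟨i, List.mem_finRange _, rfl⟩
    exact h (Subgroup.mem_top g)
  have hl : ∀ g : FreeGroup (Fin (nn m)), (g, (1 : FreeGroup (Fin (nn m)))) ∈ H := by
    intro g
    have h : (⊤ : Subgroup (FreeGroup (Fin (nn m)))) ≤ H.comap (MonoidHom.inl _ _) := by
      rw [← FreeGroup.closure_range_of, Subgroup.closure_le]
      rintro _ ⟨i, rfl⟩
      show (FreeGroup.of i, 1) ∈ H
      apply Subgroup.subset_closure
      refine ⟨[(i, true, false)], ?_, by simp [lt]⟩
      unfold Om0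
      rw [List.mem_append]
      right
      exact List.mem_map.2 ⟨i, List.mem_finRange _, rfl⟩
    exact h (Subgroup.mem_top g)
  rw [eq_top_iff]
  rintro ⟨a, b⟩ -
  have h2 := H.mul_mem (hl (a * b⁻¹)) (hd b)
  simpa using h2

theorem primrec_cL : Primrec (cL m) := by
  unfold cL
  refine Primrec.pair ?_ (Primrec.pair Primrec.snd (Primrec.const false))
  rw [← Primrec.fin_val_iff]
  exact Primrec.nat_mod.comp Primrec.fst (Primrec.const _)

theorem primrec_Om (R : List (List (Fin m × Bool))) : Primrec (Om m R) := by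
  unfold Om rels
  refine Primrec.list_append.comp (Primrec.const _) ?_
  refine Primrec.list_map (Primrec.list_append.comp (Primrec.const _) (primrec_rsn R)) ?_
  exact Primrec.list_map Primrec.snd ((primrec_cL m).comp Primrec.snd)

end words

/-- The group of an automaton whose words generate everything. -/
theorem iso_top {N : ℕ} (Ω : List (List (J N))) (j : J N) (ω : List (J N)) (hω : (j :: ω) ∈ Ω)
    (h : HΩ Ω = ⊤) : Nonempty (Grp (code (bet N) Ω) ≃* S N) := by
  obtain ⟨e⟩ := grp_iso Ω j ω hω
  rw [h, Subgroup.comap_top] at e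
  exact ⟨e.trans Subgroup.topEquiv⟩

/-- There is an automaton such that no algorithm decides whether the group of a given automaton is
isomorphic to the group of this automaton. -/
theorem main : ∃ B : Code, Valid B ∧ B.1 = 16 ∧ ¬ ∃ f : Code → Bool, Computable f ∧
    ∀ A : Code, Valid A → A.1 = 16 → (f A = true ↔ Nonempty (Grp A ≃* Grp B)) := by
  classical
  obtain ⟨m, R, W, hW, hund⟩ := Pool.Agent.Helper270.WP.word_problem
  set Rl : List (List (Fin m × Bool)) := R.toList.map FreeGroup.toWord with hRl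
  have hR : {x | ∃ r ∈ Rl, x = FreeGroup.mk r} = (R : Set (FreeGroup (Fin m))) := by
    ext x
    constructor
    · rintro ⟨r, hr, rfl⟩
      rw [hRl, List.mem_map] at hr
      obtain ⟨y, hy, rfl⟩ := hr
      rw [FreeGroup.mk_toWord]
      exact Finset.mem_toList.1 hy
    · intro hx
      exact ⟨x.toWord, List.mem_map.2 ⟨x, Finset.mem_toList.2 hx, rfl⟩, FreeGroup.mk_toWord.symm⟩
  have hN : 2 ≤ nn m := by show 2 ≤ 2 * m + 6; omega
  let i0 : Fin (nn m) := ⟨0, by omega⟩
  have hm0 : [(i0, true, true)] ∈ Om0 m := by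
    unfold Om0
    rw [List.mem_append]
    left
    exact List.mem_map.2 ⟨i0, List.mem_finRange _, rfl⟩
  obtain ⟨e0⟩ := iso_top (Om0 m) _ _ hm0 (H_Om0 m)
  refine ⟨code (bet (nn m)) (Om0 m), valid _ (List.ne_nil_of_mem hm0), rfl, ?_⟩
  rintro ⟨f, hf, hcon⟩
  apply hund
  have hρ : Computable fun n => f (code (bet (nn m)) (Om m Rl (W n))) :=
    hf.comp ((primrec_code (bet (nn m))).to_comp.comp ((primrec_Om m Rl).to_comp.comp hW))
  have key : ∀ n, (FreeGroup.mk (W n) ∈ Subgroup.normalClosure (R : Set (FreeGroup (Fin m)))) ↔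
      f (code (bet (nn m)) (Om m Rl (W n))) = true := by
    intro n
    have hm : [(i0, true, true)] ∈ Om m Rl (W n) := by
      unfold Om
      rw [List.mem_append]
      left
      exact List.mem_map.2 ⟨i0, List.mem_finRange _, rfl⟩
    rw [hcon _ (valid _ (List.ne_nil_of_mem hm)) rfl]
    constructor
    · intro h
      obtain ⟨e⟩ := iso_top _ _ _ hm (yes_case m Rl (W n) (by rw [hR]; exact h))
      exact ⟨e.trans e0.symm⟩
    · rintro ⟨e⟩
      by_contra hn
      apply no_case m Rl (W n) (by rw [hR]; exact hn)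
      obtain ⟨e1⟩ := grp_iso _ _ _ hm
      exact dec_comap hN _ (diag_mem m Rl (W n))
        (Dec.congr ((e0.symm.trans e.symm).trans e1) dec_prod)
  exact ComputablePred.computable_iff.2 ⟨_, hρ, funext fun n => propext (key n)⟩

end Pool.Agent.N136.IS
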